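import Mathlib
import Pool.Agent.Helper1_PRS.Stmts

/-!
# PRS: the module RIG (rigidity for pairs)
-/

set_option autoImplicit false

universe u

namespace Pool.Agent.PRS.H17

open MvPolynomial PGH

section Count

variable {L E : Type u} [Field L] [Field E] [Algebra L E] [IsAlgClosed L] [CharZero L] [FF L E]

/-- the static places -/
def St (L : Type u) {E : Type u} [Field L] [Field E] [Algebra L E] (D : Derivation ℤ E E) :
    Set (Place L E) := {P | ∀ y, P.Ge 1 y → P.Ge 1 (D y)}

theorem sum_zeros (y : E) (s : Finset (Place L E)) (hs : ∀ P ∉ s, P.ord y = 0) :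
    ∑ P ∈ s, max 0 (P.ord y) = ht L y := by
  have h1 := sum_poles_eq (L := L) y⁻¹ s (fun P hP => by rw [P.ord_inv, hs P hP]; rfl)
  rw [ht_inv] at h1
  rw [← h1]
  apply Finset.sum_congr rfl
  intro P _
  rw [P.ord_inv, neg_neg]

theorem ht_sub_const (y : E) (c : L) : ht L (y - algebraMap L E c) = ht L y := by
  apply le_antisymm
  · have h1 := ht_add_le (L := L) y (algebraMap L E (-c))
    rw [ht_const, map_neg, ← sub_eq_add_neg] at h1
    omega
  · have h1 := ht_add_le (L := L) (y - algebraMap L E c) (algebraMap L E c)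
    rw [ht_const, sub_add_cancel] at h1
    omega

open Classical in
/-- the two counting inequalities for one coordinate -/
theorem count (ram : RamStmt.{u}) [CharZero E] {D : Derivation ℤ E E}
    (hD0 : ∀ P : Place L E, DGe P D 0) {N : ℕ} (a : Fin N → L) (x : E)
    (ha : Function.Injective a) (hDa : ∀ i, D (algebraMap L E (a i)) = 0) (hx : D x ≠ 0)
    (s : Finset (Place L E)) (hs : ∀ P ∉ s, ∀ i, P.ord (x - algebraMap L E (a i)) = 0) :
    (N : ℤ) * ht L x ≤
      ((s.filter (fun P => P ∉ St L D ∧ ∃ i, P.ord (x - algebraMap L E (a i)) = 1)).card : ℤ) +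
        4 * ht L x ∧
    ((s.filter (fun P => P ∉ St L D ∧ ∃ i, 2 ≤ P.ord (x - algebraMap L E (a i)))).card : ℤ) ≤
      2 * ht L x := by
  have h := ram (L := L) (E := E) D (fun _ => 0) ∅ (fun _ _ => rfl)
    (fun P => by simpa using hD0 P) N a x ha hDa hx (St L D) (fun P hP => ⟨rfl, hP⟩) s
  rw [Finset.sum_empty, add_zero] at h
  -- the summand
  set g : Place L E → Fin N → ℤ := fun P i => if P ∈ St L D then
    max 0 (P.ord (x - algebraMap L E (a i))) else
    max 0 (P.ord (x - algebraMap L E (a i)) - 1) with hg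
  have hgn : ∀ P i, 0 ≤ g P i := by
    intro P i
    rw [hg]
    simp only
    split_ifs <;> exact le_max_left _ _
  have h' : ∑ P ∈ s, ∑ i, g P i ≤ 2 * (ht L x : ℤ) := by
    refine le_trans (le_of_eq ?_) h
    apply Finset.sum_congr rfl
    intro P _
    apply Finset.sum_congr rfl
    intro i _
    rw [hg]
  constructor
  · have h1 : ∀ i, ∑ P ∈ s, max 0 (P.ord (x - algebraMap L E (a i))) = (ht L x : ℤ) := by
      intro i
      rw [sum_zeros _ s (fun P hP => hs P hP i), ht_sub_const]
    have h2 : (N : ℤ) * ht L x = ∑ P ∈ s, ∑ i, max 0 (P.ord (x - algebraMap L E (a i))) := by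
      rw [Finset.sum_comm, Finset.sum_congr rfl (fun i _ => h1 i), Finset.sum_const,
        Finset.card_univ, Fintype.card_fin, nsmul_eq_mul]
    have h3 : ∀ P ∈ s, ∑ i, max 0 (P.ord (x - algebraMap L E (a i))) ≤
        (if P ∉ St L D ∧ ∃ i, P.ord (x - algebraMap L E (a i)) = 1 then 1 else 0) +
          2 * ∑ i, g P i := by
      intro P _
      rw [Finset.mul_sum]
      by_cases hP : P ∈ St L D
      · have h4 : ∀ i, max 0 (P.ord (x - algebraMap L E (a i))) ≤ 2 * g P i := by
          intro i
          rw [hg]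
          simp only
          rw [if_pos hP]
          have := le_max_left 0 (P.ord (x - algebraMap L E (a i)))
          omega
        rw [if_neg (fun h => h.1 hP), zero_add]
        exact Finset.sum_le_sum (fun i _ => h4 i)
      · have h4 : ∀ i, max 0 (P.ord (x - algebraMap L E (a i))) ≤
            (if P.ord (x - algebraMap L E (a i)) = 1 then 1 else 0) + 2 * g P i := by
          intro i
          rw [hg]
          simp only
          rw [if_neg hP]
          split_ifs <;> omega
        refine (Finset.sum_le_sum (fun i _ => h4 i)).trans ?_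
        rw [Finset.sum_add_distrib]
        apply add_le_add _ le_rfl
        rw [← Finset.sum_filter, Finset.sum_const, nsmul_eq_mul, mul_one]
        by_cases hex : ∃ i, P.ord (x - algebraMap L E (a i)) = 1
        · rw [if_pos ⟨hP, hex⟩]
          have : (Finset.univ.filter (fun i => P.ord (x - algebraMap L E (a i)) = 1)).card ≤ 1 := by
            rw [Finset.card_le_one]
            intro i hi j hj
            rw [Finset.mem_filter] at hi hj
            apply ha
            refine P.res_unique (y := x) ?_ ?_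
            · exact (P.ge_ord (y := x - algebraMap L E (a i))).mono (by rw [hi.2])
            · exact (P.ge_ord (y := x - algebraMap L E (a j))).mono (by rw [hj.2])
          exact_mod_cast this
        · rw [if_neg (fun h => hex h.2)]
          have : (Finset.univ.filter (fun i => P.ord (x - algebraMap L E (a i)) = 1)) = ∅ := by
            rw [Finset.filter_eq_empty_iff]
            intro i _ hi
            exact hex ⟨i, hi⟩
          rw [this]
          simp
    have h4 := Finset.sum_le_sum h3
    rw [← h2, Finset.sum_add_distrib, ← Finset.mul_sum, ← Finset.sum_filter, Finset.sum_const,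
      nsmul_eq_mul, mul_one] at h4
    linarith
  · refine le_trans ?_ h'
    rw [Finset.card_eq_sum_ones, Finset.sum_filter]
    push_cast
    apply Finset.sum_le_sum
    intro P _
    split_ifs with hP
    · obtain ⟨hP, i, hi⟩ := hP
      have h1 : 1 ≤ g P i := by
        rw [hg]
        simp only
        rw [if_neg hP]
        omega
      exact h1.trans (Finset.single_le_sum (f := fun i => g P i) (fun i _ => hgn P i)
        (Finset.mem_univ i))
    · exact Finset.sum_nonneg (fun i _ => hgn P i)

/-- the number of poles -/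
theorem card_poles (y : E) (s : Finset (Place L E)) [DecidablePred (fun P : Place L E => ¬ P.Ge 0 y)] :
    ((s.filter (fun P => ¬ P.Ge 0 y)).card : ℤ) ≤ ht L y := by
  refine le_trans ?_ (sum_poles_le y s)
  rw [Finset.card_eq_sum_ones, Finset.sum_filter]
  push_cast
  apply Finset.sum_le_sum
  intro P _
  by_cases hP : P.Ge 0 y
  · rw [if_neg (not_not_intro hP)]
    exact le_max_left _ _
  · rw [if_pos hP]
    have hy : y ≠ 0 := by
      rintro rfl
      exact hP (P.ge_zero 0)
    rw [P.ge_iff hy] at hP
    omega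

end Count

section Rig

variable {k L E : Type u} [Field k] [IsAlgClosed k] [Field L] [Field E] [Algebra k L] [Algebra L E]
    [Algebra k E] [IsScalarTower k L E] [IsAlgClosed L] [CharZero L] [CharZero E]
    [FF L E] {D : Derivation ℤ E E}

theorem end_lemma (hDk : ∀ c : k, D (algebraMap k E c) = 0) (P₀ : Place L E) {x : E} (κ : k)
    (hκ : P₀.Ge 1 (x - algebraMap k E κ)) (h0 : ht L x = 0) : D x = 0 := by
  have hx : ¬ Transcendental L x := by
    intro hx
    have := ht_pos hx
    omega
  obtain ⟨c, rfl⟩ := not_transcendental hx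
  have h1 : c = algebraMap k L κ := by
    refine P₀.res_unique (y := algebraMap L E c) ?_ ?_
    · rw [sub_self]; simp
    · rwa [← IsScalarTower.algebraMap_apply]
  rw [h1, ← IsScalarTower.algebraMap_apply]
  exact hDk κ

theorem rig : EvpStmt.{u} → EvnStmt.{u} → PatStmt.{u} → RamStmt.{u} → RigStmt.{u} := by
  intro evp evn pat ram k L E _ _ _ _ _ _ _ _ _ _ _ _ D _hDL hDk hD0 P₀ hst N R m x a α M b z
    hN hm ha hxa hrel hDb hQ hres
  classical
  -- constants of `L`
  set a' : Par N → L := fun q => algebraMap k L (a q) with ha'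
  have haa : ∀ q, algebraMap L E (a' q) = algebraMap k E (a q) := by
    intro q
    rw [ha', ← IsScalarTower.algebraMap_apply]
  have hinj : ∀ c, Function.Injective (fun i => a' (c, i)) := by
    intro c i j hij
    exact ha c ((algebraMap k L).injective hij)
  have hDa : ∀ q, D (algebraMap L E (a' q)) = 0 := by
    intro q
    rw [haa]
    exact hDk _
  have hxa' : ∀ q, x q.1 ≠ algebraMap L E (a' q) := by
    intro q
    rw [haa]
    exact hxa q
  have hxs : ∀ c i, x c - algebraMap L E (a' (c, i)) ≠ 0 := by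
    intro c i h
    exact hxa' (c, i) (sub_eq_zero.1 h)
  have hfun : (fun q => algebraMap L E (a' q)) = fun q => algebraMap k E (a q) := funext haa
  have hrel' : Rels N R x (fun q => algebraMap L E (a' q)) α M b z := by
    rw [hfun]
    exact hrel
  have hb : ∀ P : Place L E, P ∉ St L D → ∀ r, P.ord (b r) = 0 := by
    intro P hP r
    exact ord_zero_of_const (hD0 P) hP (hrel.1 r) (hDb r)
  have hpat : ∀ P : Place L E, P ∉ St L D → ∀ (c c' : Fin 2) (i : Fin N), c ≠ c' →
      P.ord (x c - algebraMap L E (a' (c, i))) = 1 → P.Ge 0 (x c') →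
      ∃ j, P.Ge 1 (x c' - algebraMap L E (a' (c', j))) := by
    intro P hP c c' i hcc h1 h2
    exact pat P N R x a' α M b z hinj hxa' hrel' (hb P hP) c c' i hcc h1 h2
  have hend : ∀ c, D (x c) ≠ 0 → ht L (x c) ≠ 0 := by
    intro c hc h0
    obtain ⟨κ, hκ⟩ := hres c
    exact hc (end_lemma hDk P₀ κ hκ h0)
  have hsup := fun z : E => (finite_support (L := L) z).exists_finset
  choose S hS using hsup
  -- the case where one of the two is constant
  have hone : ∀ c c' : Fin 2, c ≠ c' → D (x c) = 0 → D (x c') = 0 := by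
    intro c c' hcc hc
    by_contra hc'
    set s : Finset (Place L E) :=
      Finset.univ.biUnion (fun i => S (x c' - algebraMap L E (a' (c', i)))) with hs
    have h1 := (count ram hD0 (fun i => a' (c', i)) (x c') (hinj c') (fun i => hDa _) hc' s (by
      intro P hP i
      by_contra h0
      apply hP
      rw [hs, Finset.mem_biUnion]
      exact ⟨i, Finset.mem_univ _, (hS _ P).2 h0⟩)).1
    have h2 : (s.filter (fun P => P ∉ St L D ∧
        ∃ i, P.ord (x c' - algebraMap L E (a' (c', i))) = 1)) = ∅ := by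
      rw [Finset.filter_eq_empty_iff]
      rintro P _ ⟨hP, i, hi⟩
      have h3 : ∀ j, P.ord (x c - algebraMap L E (a' (c, j))) = 0 := by
        intro j
        refine ord_zero_of_const (hD0 P) hP (hxs c j) ?_
        rw [map_sub, hc, hDa, sub_zero]
      have h4 : P.Ge 0 (x c) := by
        have h5 := (P.ge_ord (y := x c - algebraMap L E (a' (c, i)))).mono (h3 i).ge
        have h6 := h5.add (P.ge_const (a' (c, i)))
        rwa [sub_add_cancel] at h6
      obtain ⟨j, hj⟩ := hpat P hP c' c i hcc.symm hi h4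
      rw [P.ge_iff (hxs c j), h3 j] at hj
      omega
    rw [h2, Finset.card_empty] at h1
    have h3 := hend c' hc'
    have h4 : (1 : ℤ) ≤ ht L (x c') := by omega
    have h5 : (13 : ℤ) ≤ N := by exact_mod_cast hN
    push_cast at h1
    nlinarith
  by_cases h0 : D (x 0) = 0
  · intro c
    fin_cases c
    · exact h0
    · exact hone 0 1 (by decide) h0
  by_cases h1 : D (x 1) = 0
  · intro c
    fin_cases c
    · exact hone 1 0 (by decide) h1
    · exact h1
  exfalso
  obtain ⟨Q, hQA, hQ0⟩ := hQ (by intro c; fin_cases c; exacts [h0, h1])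
  set W : E := aeval (Sum.elim (jet D x) (fun q => algebraMap k E (a q))) Q with hW
  have hWE : W = aeval (Sum.elim (jet D x) (fun q => algebraMap L E (a' q))) Q := by
    rw [hW, hfun]
  set s : Finset (Place L E) :=
    (Finset.univ.biUnion (fun q : Par N => S (x q.1 - algebraMap L E (a' q)))) ∪ S W with hs
  have hs1 : ∀ c, ∀ P ∉ s, ∀ i, P.ord (x c - algebraMap L E (a' (c, i))) = 0 := by
    intro c P hP i
    by_contra h0
    apply hP
    rw [hs, Finset.mem_union, Finset.mem_biUnion]
    left
    exact ⟨(c, i), Finset.mem_univ _, (hS _ P).2 h0⟩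
  have hs2 : ∀ P ∉ s, P.ord W = 0 := by
    intro P hP
    by_contra h0
    apply hP
    rw [hs, Finset.mem_union]
    right
    exact (hS _ P).2 h0
  obtain ⟨hc0, hr0⟩ := count ram hD0 (fun i => a' (0, i)) (x 0) (hinj 0) (fun i => hDa _) h0 s
    (hs1 0)
  obtain ⟨hc1, -⟩ := count ram hD0 (fun i => a' (1, i)) (x 1) (hinj 1) (fun i => hDa _) h1 s
    (hs1 1)
  set A0 := s.filter (fun P => P ∉ St L D ∧ ∃ i, P.ord (x 0 - algebraMap L E (a' (0, i))) = 1)
    with hA0
  set A1 := s.filter (fun P => P ∉ St L D ∧ ∃ i, P.ord (x 1 - algebraMap L E (a' (1, i))) = 1)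
    with hA1
  set R0 := s.filter (fun P => P ∉ St L D ∧ ∃ i, 2 ≤ P.ord (x 0 - algebraMap L E (a' (0, i))))
    with hR0
  have hp0 := card_poles (L := L) (x 0) s
  have hp1 := card_poles (L := L) (x 1) s
  set p0 := s.filter (fun P => ¬ P.Ge 0 (x 0)) with hp0d
  set p1 := s.filter (fun P => ¬ P.Ge 0 (x 1)) with hp1d
  set T := s.filter (fun P => P ∉ St L D ∧ (∃ i, P.ord (x 0 - algebraMap L E (a' (0, i))) = 1) ∧
    ∃ j, P.Ge 1 (x 1 - algebraMap L E (a' (1, j)))) with hT
  have hA0le : A0.card ≤ T.card + p1.card := by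
    refine le_trans (Finset.card_le_card ?_) (Finset.card_union_le T p1)
    intro P hP
    rw [hA0, Finset.mem_filter] at hP
    obtain ⟨hPs, hPst, i, hi⟩ := hP
    rw [Finset.mem_union]
    by_cases hreg : P.Ge 0 (x 1)
    · left
      rw [hT, Finset.mem_filter]
      exact ⟨hPs, hPst, ⟨i, hi⟩, hpat P hPst 0 1 i (by decide) hi hreg⟩
    · right
      rw [hp1d, Finset.mem_filter]
      exact ⟨hPs, hreg⟩
  have hA1le : A1.card ≤ T.card + p0.card + R0.card := by
    refine le_trans (Finset.card_le_card (t := (T ∪ p0) ∪ R0) ?_)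
      ((Finset.card_union_le (T ∪ p0) R0).trans
        (Nat.add_le_add_right (Finset.card_union_le T p0) _))
    intro P hP
    rw [hA1, Finset.mem_filter] at hP
    obtain ⟨hPs, hPst, j, hj⟩ := hP
    rw [Finset.mem_union, Finset.mem_union]
    by_cases hreg : P.Ge 0 (x 0)
    · obtain ⟨i, hi⟩ := hpat P hPst 1 0 j (by decide) hj hreg
      rw [P.ge_iff (hxs 0 i)] at hi
      rcases hi.lt_or_eq with h2 | h2
      · right
        rw [hR0, Finset.mem_filter]
        exact ⟨hPs, hPst, i, by omega⟩
      · left; left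
        rw [hT, Finset.mem_filter]
        exact ⟨hPs, hPst, ⟨i, h2.symm⟩, j, by rw [P.ge_iff (hxs 1 j), hj]⟩
    · left; right
      rw [hp0d, Finset.mem_filter]
      exact ⟨hPs, hreg⟩
  -- the order of `W`
  have hd : (N - 9) * m + m = (N - 8) * m := by
    have : N - 8 = (N - 9) + 1 := by omega
    rw [this, add_mul, one_mul]
  have hord : ∀ P ∈ s, (if P ∈ T then (2 * m : ℤ) else 0) -
      ((N - 8 : ℕ) * m : ℤ) * (max 0 (- P.ord (x 0)) + max 0 (- P.ord (x 1))) ≤ P.ord W := by
    intro P _
    have hnn : (0 : ℤ) ≤ ((N - 8 : ℕ) * m : ℤ) *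
        (max 0 (- P.ord (x 0)) + max 0 (- P.ord (x 1))) := by
      apply mul_nonneg (by positivity)
      have := le_max_left 0 (- P.ord (x 0))
      have := le_max_left 0 (- P.ord (x 1))
      omega
    split_ifs with hPT
    · rw [hT, Finset.mem_filter] at hPT
      obtain ⟨-, -, ⟨i, hi⟩, j, hj⟩ := hPT
      have h2 := evn P D (hD0 P) N m _ a' x hDa i j hi hj Q hQA
      rw [← hWE, P.ge_iff hQ0] at h2
      linarith
    · have h2 := evp P D 0 (by simpa using hD0 P) N m _ a' x
        (fun c => (max 0 (- P.ord (x c))).toNat) (by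
          intro c
          refine (P.ge_ord (y := x c)).mono ?_
          omega) Q hQA
      rw [← hWE, P.ge_iff hQ0, mul_zero, add_zero, hd] at h2
      push_cast at h2
      rw [Int.toNat_of_nonneg (le_max_left 0 (- P.ord (x 0))),
        Int.toNat_of_nonneg (le_max_left 0 (- P.ord (x 1)))] at h2
      linarith
  have hsum := Finset.sum_le_sum hord
  rw [sum_ord_eq_zero W s hs2, Finset.sum_sub_distrib, ← Finset.mul_sum, Finset.sum_add_distrib,
    Finset.sum_ite_mem, Finset.sum_const, nsmul_eq_mul] at hsum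
  have hsT : s ∩ T = T := by
    rw [Finset.inter_eq_right, hT]
    exact Finset.filter_subset _ _
  rw [hsT] at hsum
  have hq0 := sum_poles_le (L := L) (x 0) s
  have hq1 := sum_poles_le (L := L) (x 1) s
  have hm' : (1 : ℤ) ≤ m := by exact_mod_cast hm
  have hN8 : ((N - 8 : ℕ) : ℤ) = (N : ℤ) - 8 := by omega
  have hN' : (13 : ℤ) ≤ N := by exact_mod_cast hN
  have hfin : 2 * (T.card : ℤ) ≤ ((N : ℤ) - 8) * (ht L (x 0) + ht L (x 1)) := by
    have h2 : (m : ℤ) * (2 * (T.card : ℤ)) ≤ m * (((N : ℤ) - 8) * (ht L (x 0) + ht L (x 1))) := by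
      have h3 : ((N - 8 : ℕ) * m : ℤ) * (∑ P ∈ s, max 0 (- P.ord (x 0)) +
          ∑ P ∈ s, max 0 (- P.ord (x 1))) ≤
          ((N - 8 : ℕ) * m : ℤ) * (ht L (x 0) + ht L (x 1)) :=
        mul_le_mul_of_nonneg_left (add_le_add hq0 hq1) (by positivity)
      rw [hN8] at hsum h3
      nlinarith
    exact le_of_mul_le_mul_left h2 (by omega)
  have e0 := hend 0 h0
  have e1 := hend 1 h1
  have f0 : (A0.card : ℤ) ≤ T.card + p1.card := by exact_mod_cast hA0le
  have f1 : (A1.card : ℤ) ≤ T.card + p0.card + R0.card := by exact_mod_cast hA1le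
  have g0 : (1 : ℤ) ≤ ht L (x 0) := by omega
  have g1 : (1 : ℤ) ≤ ht L (x 1) := by omega
  nlinarith

end Rig

end Pool.Agent.PRS.H17
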